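import Mathlib
import Pool.Agent.HEO71.Loc
import Pool.Agent.HEO71.Num

/-!
# Happy edge orientations in `O(Δ ^ (5 / 2))` rounds of the deterministic LOCAL model

The algorithm does not use the number of nodes, and works for arbitrary distinct identifiers.
-/

namespace Pool.Agent.Results.MP_fd5716_lc.FiveHalves

open HEO70

/-- The deterministic round complexity of happy edge orientations on networks of maximum degree at
most `Δ`. -/
noncomputable def roundComplexity (Δ : ℕ) : ℕ := sInf {T : ℕ | SolvableIn Δ T}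

theorem solvable_zero : SolvableIn 0 0 := by
  have hloc : IsLocal 0 (fun (_ : Network) (_ : ℕ) => (∅ : Set ℕ)) := fun _ _ _ _ => rfl
  obtain ⟨A, hA⟩ := exists_algorithm_of_local hloc
  refine ⟨A, ?_⟩
  intro G hG
  have hno : ∀ u v, ¬ G.graph.Adj u v := by
    intro u v h
    have h1 := card_nb (hG u)
    have h2 : v ∈ nb G u := mem_nb.2 h
    have h3 := Finset.card_pos.2 ⟨v, h2⟩
    omega
  have hfun : (fun v => A.out (A.run G 0 v)) = fun _ => (∅ : Set ℕ) := by
    funext v
    exact hA G v
  rw [hfun]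
  refine ⟨?_, ?_, ?_⟩
  · intro u v h
    exact absurd h (Set.notMem_empty _)
  · intro u v h
    exact absurd h (hno u v)
  · intro u v h
    exact absurd h (Set.notMem_empty _)

/-- For every `Δ` happy edge orientations of networks of maximum degree at most `Δ` can be found by
a deterministic algorithm of the LOCAL model, and its round complexity is at most
`12351 * Δ ^ (5 / 2)`. -/
theorem result (Δ : ℕ) : (∃ T : ℕ, SolvableIn Δ T) ∧
    (roundComplexity Δ : ℝ) ≤ 12351 * (Δ : ℝ) ^ (5 / 2 : ℝ) := by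
  have key : ∃ T : ℕ, SolvableIn Δ T ∧ (T : ℝ) ≤ 12351 * (Δ : ℝ) ^ (5 / 2 : ℝ) := by
    rcases Nat.eq_zero_or_pos Δ with h0 | hpos
    · subst h0
      refine ⟨0, solvable_zero, ?_⟩
      have : (0 : ℝ) ≤ ((0 : ℕ) : ℝ) ^ (5 / 2 : ℝ) := by positivity
      push_cast
      positivity
    · exact ⟨_, HEO71.solvable Δ, HEO71.rounds_le hpos⟩
  obtain ⟨T, hT, hT'⟩ := key
  refine ⟨⟨T, hT⟩, ?_⟩
  have hle : roundComplexity Δ ≤ T := Nat.sInf_le hT
  calc (roundComplexity Δ : ℝ) ≤ (T : ℝ) := by exact_mod_cast hle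
    _ ≤ _ := hT'

end Pool.Agent.Results.MP_fd5716_lc.FiveHalves
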